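import Mathlib
import Pool.Agent.LevyThin.Least

/-!
# The energy of the numbers `x (x + 1)` with respect to the prime pair sieve
-/

set_option autoImplicit false

namespace Pool.Agent.TriX

open Finset
open Pool.Agent.Lib.PrimePairs Pool.Agent.LevyThin
open scoped Pointwise

lemma sum_image_le' {α : Type} [DecidableEq α] (s : Finset α) (f : α → ℕ) (g : ℕ → ℝ)
    (hg : ∀ n, 0 ≤ g n) : ∑ n ∈ s.image f, g n ≤ ∑ a ∈ s, g (f a) := by
  rw [← Finset.sum_fiberwise_of_maps_to (s := s) (t := s.image f) (g := f)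
    (fun a ha => Finset.mem_image_of_mem f ha) (fun a => g (f a))]
  refine Finset.sum_le_sum fun n hn => ?_
  obtain ⟨a, ha, rfl⟩ := Finset.mem_image.1 hn
  exact Finset.single_le_sum (f := fun a => g (f a)) (fun b _ => hg (f b))
    (Finset.mem_filter.2 ⟨ha, rfl⟩)

lemma F_mul_le (a b : ℕ) : F (a * b) ≤ F a * F b := by
  unfold F
  rw [Nat.divisors_mul, Finset.mul_def, Finset.sum_mul_sum, ← Finset.sum_product']
  refine (sum_image_le' _ _ _ fun n => by positivity).trans (le_of_eq ?_)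
  refine Finset.sum_congr rfl fun p _ => ?_
  push_cast
  rw [div_mul_div_comm, one_mul]

lemma F_two : F 2 = 3 / 2 := by
  unfold F
  rw [show Nat.divisors 2 = {1, 2} by decide]
  norm_num

/-- the pronic numbers -/
def h (x : ℕ) : ℕ := x * (x + 1)

lemma h_lt {i j : ℕ} (hij : i < j) : h i < h j := by
  unfold h
  nlinarith

lemma h_sub {i j : ℕ} (hij : i < j) : h j - h i = (j - i) * (j + i + 1) := by
  obtain ⟨d, rfl⟩ : ∃ d, j = i + d := ⟨j - i, by omega⟩
  unfold h
  rw [Nat.add_sub_cancel_left]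
  have : (i + d) * (i + d + 1) = i * (i + 1) + d * (i + d + i + 1) := by ring
  rw [this, Nat.add_sub_cancel_left]

lemma pair_le {i j : ℕ} (hij : i < j) :
    F (2 * (h j - h i)) ^ 2 ≤ 9 / 8 * (F (j - i) ^ 4 + F (j + i + 1) ^ 4) := by
  rw [h_sub hij]
  have h1 : F (2 * ((j - i) * (j + i + 1))) ≤ 3 / 2 * (F (j - i) * F (j + i + 1)) := by
    refine (F_mul_le _ _).trans ?_
    rw [F_two]
    exact mul_le_mul_of_nonneg_left (F_mul_le _ _) (by norm_num)
  have h2 := F_nonneg (j - i)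
  have h3 := F_nonneg (j + i + 1)
  have h4 : F (2 * ((j - i) * (j + i + 1))) ^ 2 ≤ (3 / 2 * (F (j - i) * F (j + i + 1))) ^ 2 :=
    pow_le_pow_left₀ (F_nonneg _) h1 2
  refine h4.trans ?_
  nlinarith [sq_nonneg (F (j - i) ^ 2 - F (j + i + 1) ^ 2)]

/-- the energy of the `x (x + 1)`, `x ≤ M` -/
lemma energy_Icc (M : ℕ) : ∑ j ∈ Icc 1 M, ∑ i ∈ (Icc 1 M).filter (· < j),
    F (2 * (h j - h i)) ^ 2 ≤ 27 / 8 * W ^ 4 * (M : ℝ) ^ 2 := by
  have hW := W_nonneg
  have h1 : ∀ j ∈ Icc 1 M, ∑ i ∈ (Icc 1 M).filter (· < j), F (2 * (h j - h i)) ^ 2 ≤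
      27 / 8 * W ^ 4 * (M : ℝ) := by
    intro j hj
    rw [Finset.mem_Icc] at hj
    have h2 : ∑ i ∈ (Icc 1 M).filter (· < j), F (2 * (h j - h i)) ^ 2 ≤
        ∑ i ∈ (Icc 1 M).filter (· < j), 9 / 8 * (F (j - i) ^ 4 + F (j + i + 1) ^ 4) :=
      Finset.sum_le_sum fun i hi => pair_le (Finset.mem_filter.1 hi).2
    rw [← Finset.mul_sum, Finset.sum_add_distrib] at h2
    have h3 : ∑ i ∈ (Icc 1 M).filter (· < j), F (j - i) ^ 4 ≤ W ^ 4 * M := by
      have h4 : ∑ i ∈ (Icc 1 M).filter (· < j), F (j - i) ^ 4 =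
          ∑ d ∈ ((Icc 1 M).filter (· < j)).image (fun i => j - i), F d ^ 4 := by
        rw [Finset.sum_image]
        intro a ha b hb hab
        have ha' := (Finset.mem_filter.1 (Finset.mem_coe.1 ha)).2
        have hb' := (Finset.mem_filter.1 (Finset.mem_coe.1 hb)).2
        simp only at hab ha' hb'
        omega
      rw [h4]
      refine (Finset.sum_le_sum_of_subset_of_nonneg (t := Icc 1 M) ?_ fun d _ _ => ?_).trans
        (sum_F_pow_four_le M)
      · intro d hd
        obtain ⟨i, hi, rfl⟩ := Finset.mem_image.1 hd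
        have hi' := Finset.mem_filter.1 hi
        rw [Finset.mem_Icc] at hi' ⊢
        omega
      · have := F_nonneg d
        positivity
    have h5 : ∑ i ∈ (Icc 1 M).filter (· < j), F (j + i + 1) ^ 4 ≤ W ^ 4 * (2 * M) := by
      have h4 : ∑ i ∈ (Icc 1 M).filter (· < j), F (j + i + 1) ^ 4 =
          ∑ d ∈ ((Icc 1 M).filter (· < j)).image (fun i => j + i + 1), F d ^ 4 := by
        rw [Finset.sum_image]
        intro a _ b _ hab
        simp only at hab
        omega
      rw [h4]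
      have h6 := sum_F_pow_four_le (2 * M)
      push_cast at h6
      refine (Finset.sum_le_sum_of_subset_of_nonneg (t := Icc 1 (2 * M)) ?_ fun d _ _ => ?_).trans h6
      · intro d hd
        obtain ⟨i, hi, rfl⟩ := Finset.mem_image.1 hd
        have hi' := Finset.mem_filter.1 hi
        rw [Finset.mem_Icc] at hi' ⊢
        omega
      · have := F_nonneg d
        positivity
    refine h2.trans ?_
    nlinarith
  refine (Finset.sum_le_sum h1).trans (le_of_eq ?_)
  rw [Finset.sum_const, Nat.card_Icc, nsmul_eq_mul, Nat.add_sub_cancel]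
  ring

/-- the energy of the `x (x + 1)`, `x` in a subset of `[1, M]` -/
lemma energy_sub (M : ℕ) (S : Finset ℕ) (hS : S ⊆ Icc 1 M) :
    ∑ j ∈ S, ∑ i ∈ S.filter (· < j), F (2 * (h j - h i)) ^ 2 ≤ 27 / 8 * W ^ 4 * (M : ℝ) ^ 2 := by
  refine le_trans ?_ (energy_Icc M)
  refine (Finset.sum_le_sum fun j _ => Finset.sum_le_sum_of_subset_of_nonneg
    (Finset.filter_subset_filter _ hS) fun i _ _ => by positivity).trans ?_
  exact Finset.sum_le_sum_of_subset_of_nonneg hS fun j _ _ =>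
    Finset.sum_nonneg fun i _ => by positivity

end Pool.Agent.TriX
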