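import Mathlib
import Pool.Agent.TriX.Energy

/-!
# The lower bound
-/

set_option autoImplicit false

namespace Pool.Agent.TriX

open Finset
open Pool.Agent.Lib.PrimePairs Pool.Agent.LevyThin
open scoped Pointwise

/-- elementary facts for large `X` -/
lemma basic {X : ℕ} (hX : 2 ^ 48 ≤ X) : Real.log X ^ 2 ≤ 64 * Real.sqrt X ∧ (2 : ℝ) ^ 24 ≤ Real.sqrt X ∧
    Real.sqrt X * Real.sqrt X = X ∧ 1 ≤ Real.log X ∧ Nat.sqrt X + 1 ≤ X ∧
    Real.log X * (Real.log X + 1) ≤ X := by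
  have hXr : (2 : ℝ) ^ 48 ≤ X := by exact_mod_cast hX
  have hXpos : (0 : ℝ) < X := lt_of_lt_of_le (by positivity) hXr
  have hss : Real.sqrt X * Real.sqrt X = X := Real.mul_self_sqrt hXpos.le
  have hs0 : 0 ≤ Real.sqrt X := Real.sqrt_nonneg _
  have hs : (2 : ℝ) ^ 24 ≤ Real.sqrt X := by
    apply Real.le_sqrt_of_sq_le
    refine le_trans (le_of_eq ?_) hXr
    norm_num
  have h4 := log_le_eight_root (P := X) (by omega)
  have h5 : Real.log X ^ 2 ≤ 64 * Real.sqrt X := by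
    rw [← pow_le_pow_iff_left₀ (by positivity) (by positivity) (two_ne_zero)]
    have hs1 : 1 ≤ Real.sqrt X := le_trans (by norm_num) hs
    nlinarith
  have hlog : 1 ≤ Real.log X := by
    rw [Real.le_log_iff_exp_le hXpos]
    have := Real.exp_one_lt_d9
    linarith [show (3 : ℝ) ≤ 2 ^ 48 by norm_num]
  refine ⟨h5, hs, hss, hlog, ?_, ?_⟩
  · have h1 : Nat.sqrt X < X := Nat.sqrt_lt_self (by omega)
    omega
  · have h6 : Real.log X ≤ Real.log X ^ 2 := by nlinarith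
    have h7 : Real.log X * (Real.log X + 1) ≤ 128 * Real.sqrt X := by nlinarith
    have h8 : 128 * Real.sqrt X ≤ Real.sqrt X * Real.sqrt X :=
      mul_le_mul_of_nonneg_right (le_trans (by norm_num) hs) hs0
    linarith

lemma exists_large (T : ℝ) : ∃ X2 : ℕ, ∀ X ≥ X2, 2 ^ 48 ≤ X ∧ T ≤ Real.log (X : ℝ) := by
  have h1 : Filter.Tendsto (fun X : ℕ => Real.log (X : ℝ)) Filter.atTop Filter.atTop :=
    Real.tendsto_log_atTop.comp tendsto_natCast_atTop_atTop
  obtain ⟨X2, h⟩ := Filter.eventually_atTop.1 (h1.eventually_ge_atTop T)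
  exact ⟨max X2 (2 ^ 48), fun X hX => ⟨(le_max_right _ _).trans hX, h X ((le_max_left _ _).trans hX)⟩⟩

/-- the elements of `Q` which are not small -/
def big (X : ℕ) (Q : Finset ℕ) : Finset ℕ := Q.filter (fun q => Nat.sqrt X + 1 < q)

lemma card_big {X : ℕ} (Q : Finset ℕ) : (Q.card : ℝ) - (Real.sqrt X + 2) ≤ ((big X Q).card : ℝ) := by
  have h1 : Q.card ≤ (big X Q).card + (Finset.range (Nat.sqrt X + 2)).card := by
    rw [← Finset.card_filter_add_card_filter_not (s := Q) (fun q => Nat.sqrt X + 1 < q)]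
    refine Nat.add_le_add_left (Finset.card_le_card fun q hq => ?_) _
    rw [Finset.mem_filter] at hq
    rw [Finset.mem_range]
    omega
  rw [Finset.card_range] at h1
  have h2 : (Q.card : ℝ) ≤ ((big X Q).card : ℝ) + ((Nat.sqrt X : ℝ) + 2) := by exact_mod_cast h1
  have h3 : (Nat.sqrt X : ℝ) ≤ Real.sqrt X := Real.nat_sqrt_le_real_sqrt
  linarith

theorem lower : ∃ c : ℝ, 0 < c ∧ ∀ C δ η : ℝ, 0 < C → C ≤ 1 → 0 < δ → 0 < η →
    ∃ X0 : ℕ, ∀ X ≥ X0, 2 ^ 48 ≤ X ∧ ∀ Q : Finset ℕ, (∀ q ∈ Q, q.Prime ∧ q ≤ X) →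
      δ * X / Real.log X ≤ (Q.card : ℝ) → ∀ S : Finset ℕ,
      (∀ x ∈ S, 1 ≤ x ∧ (x : ℝ) ≤ C * Real.log X) → η * (C * Real.log X) ≤ (S.card : ℝ) →
      c * C * δ ^ 2 * η ^ 2 * X ≤ ((S.image h + big X Q).card : ℝ) := by
  have hK0 := K0_pos
  have hW := W_nonneg
  set K : ℝ := 27 / 8 * W ^ 4 with hK
  have hKn : 0 ≤ K := by positivity
  set D : ℝ := 2 + 2 * K0 * K with hD
  have hD0 : 0 < D := by positivity
  obtain ⟨n0, hn0⟩ := pi_bounds
  refine ⟨1 / (4 * D), by positivity, fun C δ η hC hC1 hδ hη => ?_⟩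
  obtain ⟨X2, hX2⟩ := exists_large (256 / δ)
  refine ⟨max X2 n0, fun X hX => ?_⟩
  obtain ⟨hX48, hlogT⟩ := hX2 X ((le_max_left _ _).trans hX)
  have hpi := (hn0 X ((le_max_right _ _).trans hX)).2
  obtain ⟨b1, b2, b3, b4, b5, b6⟩ := basic hX48
  refine ⟨hX48, fun Q hQ hQc S hS hSc => ?_⟩
  have hXr : (2 : ℝ) ^ 48 ≤ X := by exact_mod_cast hX48
  have hXpos : (0 : ℝ) < X := lt_of_lt_of_le (by positivity) hXr
  set L := Real.log X with hL
  have hL0 : 0 < L := by linarith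
  set Q' := big X Q with hQ'
  have hQ'c : δ * X / (2 * L) ≤ (Q'.card : ℝ) := by
    have h1 := card_big (X := X) Q
    rw [← hQ'] at h1
    have h2 : Real.sqrt X + 2 ≤ δ * X / (2 * L) := by
      rw [le_div_iff₀ (by positivity)]
      have h3 : 256 ≤ δ * L := by
        rw [div_le_iff₀ hδ] at hlogT
        linarith
      have h4 : 4 * L ≤ δ * Real.sqrt X := by
        have h5 : 4 * L * 64 ≤ δ * L ^ 2 := by nlinarith
        have h6 : δ * L ^ 2 ≤ δ * (64 * Real.sqrt X) := mul_le_mul_of_nonneg_left b1 hδ.le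
        linarith
      have h7 : Real.sqrt X + 2 ≤ 2 * Real.sqrt X := by linarith [show (2 : ℝ) ≤ 2 ^ 24 by norm_num]
      have hs0 : 0 ≤ Real.sqrt X := Real.sqrt_nonneg _
      calc (Real.sqrt X + 2) * (2 * L) ≤ 2 * Real.sqrt X * (2 * L) :=
            mul_le_mul_of_nonneg_right h7 (by positivity)
        _ = Real.sqrt X * (4 * L) := by ring
        _ ≤ Real.sqrt X * (δ * Real.sqrt X) := mul_le_mul_of_nonneg_left h4 hs0
        _ = δ * (Real.sqrt X * Real.sqrt X) := by ring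
        _ = δ * X := by rw [b3]
    have h8 : δ * X / L = δ * X / (2 * L) + δ * X / (2 * L) := by field_simp; ring
    linarith
  have hQ'u : (Q'.card : ℝ) ≤ 2 * X / L := by
    have h1 : Q'.card ≤ Nat.primeCounting X := by
      rw [Nat.primeCounting, Nat.primeCounting', Nat.count_eq_card_filter_range]
      refine Finset.card_le_card fun q hq => ?_
      have hq' := hQ q (Finset.mem_of_mem_filter q hq)
      rw [Finset.mem_filter, Finset.mem_range]
      exact ⟨by omega, hq'.1⟩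
    have h2 : (Q'.card : ℝ) ≤ (Nat.primeCounting X : ℝ) := by exact_mod_cast h1
    refine h2.trans ?_
    rw [le_div_iff₀ hL0]
    linarith
  set M := ⌊C * L⌋₊ with hM
  have hMr : (M : ℝ) ≤ C * L := Nat.floor_le (by positivity)
  have hSM : S ⊆ Icc 1 M := fun x hx => by
    rw [Finset.mem_Icc]
    exact ⟨(hS x hx).1, Nat.le_floor (hS x hx).2⟩
  have hSu : (S.card : ℝ) ≤ C * L := by
    have h1 := Finset.card_le_card hSM
    rw [Nat.card_Icc, Nat.add_sub_cancel] at h1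
    have h2 : (S.card : ℝ) ≤ M := by exact_mod_cast h1
    exact h2.trans hMr
  have hen := energy_sub M S hSM
  rw [← hK] at hen
  have hcore := core hX48 b5 S Q' h (fun i _ j _ hij => h_lt hij) (fun q hq => by
    have h1 := Finset.mem_filter.1 hq
    exact ⟨(hQ q h1.1).1, h1.2, (hQ q h1.1).2⟩) (K * (M : ℝ) ^ 2) hen
  rw [← hL] at hcore
  set R : ℝ := ((S.image h + Q').card : ℝ) with hR
  have hR0 : 0 ≤ R := Nat.cast_nonneg _
  have e1 : (S.card : ℝ) * Q'.card ≤ 2 * (C * X) := by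
    calc (S.card : ℝ) * Q'.card ≤ (C * L) * (2 * X / L) :=
          mul_le_mul hSu hQ'u (Nat.cast_nonneg _) (by positivity)
      _ = 2 * (C * X) := by field_simp
  have e2 : 2 * (K0 * X / L ^ 2 * (K * (M : ℝ) ^ 2)) ≤ 2 * K0 * K * (C * X) := by
    have h1 : (M : ℝ) ^ 2 ≤ (C * L) ^ 2 := pow_le_pow_left₀ (Nat.cast_nonneg _) hMr 2
    calc 2 * (K0 * X / L ^ 2 * (K * (M : ℝ) ^ 2)) ≤ 2 * (K0 * X / L ^ 2 * (K * (C * L) ^ 2)) := by
          gcongr
      _ = 2 * K0 * K * (C ^ 2 * X) := by field_simp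
      _ ≤ 2 * K0 * K * (C * X) := by
          have h2 : C ^ 2 ≤ C := by nlinarith
          gcongr
  have e3 : (η * (C * L)) ^ 2 * (δ * X / (2 * L)) ^ 2 ≤ (S.card : ℝ) ^ 2 * (Q'.card : ℝ) ^ 2 := by
    gcongr
  have e4 : (η * (C * L)) ^ 2 * (δ * X / (2 * L)) ^ 2 = η ^ 2 * δ ^ 2 * (C * X) ^ 2 / 4 := by
    field_simp
    ring
  have e5 : η ^ 2 * δ ^ 2 * (C * X) ^ 2 / 4 ≤ R * (D * (C * X)) := by
    rw [← e4]
    refine e3.trans (hcore.trans ?_)
    refine mul_le_mul_of_nonneg_left ?_ hR0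
    rw [hD]
    linarith
  have hCX : 0 < C * X := by positivity
  have e6 : η ^ 2 * δ ^ 2 * (C * X) / 4 ≤ R * D := by
    have h1 : (η ^ 2 * δ ^ 2 * (C * X) / 4) * (C * X) ≤ (R * D) * (C * X) := by
      calc _ = η ^ 2 * δ ^ 2 * (C * X) ^ 2 / 4 := by ring
        _ ≤ _ := e5
        _ = _ := by ring
    exact le_of_mul_le_mul_right h1 hCX
  calc 1 / (4 * D) * C * δ ^ 2 * η ^ 2 * X = (η ^ 2 * δ ^ 2 * (C * X) / 4) / D := by
        field_simp
    _ ≤ R := by rw [div_le_iff₀ hD0]; exact e6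

end Pool.Agent.TriX
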