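import Mathlib
import Pool.Agent.TriX.Lower

/-!
# Odd integers `p + x (x + 1)` with small `x`
-/

set_option autoImplicit false

namespace Pool.Agent.TriX

open Finset
open Pool.Agent.Lib.PrimePairs Pool.Agent.LevyThin
open scoped Pointwise

lemma odd_of_big {X q : ℕ} (hX : 2 ^ 48 ≤ X) (hq : q.Prime) (hb : Nat.sqrt X + 1 < q) (x : ℕ) :
    Odd (q + x * (x + 1)) := by
  have h1 : 1 ≤ Nat.sqrt X := by
    rw [Nat.one_le_iff_ne_zero, Ne, Nat.sqrt_eq_zero]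
    omega
  have h2 : Odd q := hq.odd_of_ne_two (by omega)
  exact h2.add_even (Nat.even_mul_succ_self x)

/-- the first set -/
def rep (X : ℕ) (Q S : Finset ℕ) : Set ℕ :=
  {n | n ≤ 2 * X ∧ Odd n ∧ ∃ q ∈ Q, ∃ x ∈ S, n = q + x * (x + 1)}

lemma sum_le {C : ℝ} (hC : C ≤ 1) {X : ℕ} (hX : 2 ^ 48 ≤ X) {q x : ℕ} (hq : q ≤ X)
    (hx : (x : ℝ) ≤ C * Real.log X) : q + x * (x + 1) ≤ 2 * X := by
  obtain ⟨-, -, -, b4, -, b6⟩ := basic hX
  have h1 : (x : ℝ) ≤ Real.log X := hx.trans (by nlinarith)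
  have h2 : (x : ℝ) * (x + 1) ≤ X := by
    refine le_trans ?_ b6
    have h0 : (0 : ℝ) ≤ x := Nat.cast_nonneg _
    gcongr
  have h3 : ((x * (x + 1) : ℕ) : ℝ) ≤ ((X : ℕ) : ℝ) := by
    push_cast
    exact h2
  have h4 : x * (x + 1) ≤ X := by exact_mod_cast h3
  omega

lemma rep_ge {C : ℝ} (hC : C ≤ 1) {X : ℕ} (hX : 2 ^ 48 ≤ X) {Q S : Finset ℕ}
    (hQ : ∀ q ∈ Q, q.Prime ∧ q ≤ X) (hS : ∀ x ∈ S, 1 ≤ x ∧ (x : ℝ) ≤ C * Real.log X) :
    ((S.image h + big X Q).card : ℝ) ≤ ((rep X Q S).ncard : ℝ) := by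
  have hfin : (rep X Q S).Finite := (Set.finite_Iic (2 * X)).subset fun _ hn => hn.1
  have h1 : ((S.image h + big X Q : Finset ℕ) : Set ℕ) ⊆ rep X Q S := by
    intro n hn
    rw [Finset.mem_coe, Finset.mem_add] at hn
    obtain ⟨a, ha, q, hq, rfl⟩ := hn
    obtain ⟨x, hx, rfl⟩ := Finset.mem_image.1 ha
    have hq' := Finset.mem_filter.1 hq
    have e : h x + q = q + x * (x + 1) := by unfold h; ring
    rw [e]
    exact ⟨sum_le hC hX (hQ q hq'.1).2 (hS x hx).2, odd_of_big hX (hQ q hq'.1).1 hq'.2 x,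
      q, hq'.1, x, hx, rfl⟩
  have h2 := Set.ncard_le_ncard h1 hfin
  rw [Set.ncard_coe_finset] at h2
  exact_mod_cast h2

/-- the second set -/
def sm (C : ℝ) (X : ℕ) : Set ℕ :=
  {n | n ≤ X ∧ Odd n ∧ ∃ p x : ℕ, p.Prime ∧ 1 ≤ x ∧ n = p + x * (x + 1) ∧ (x : ℝ) ≤ C * Real.log n}

theorem sm_lower {c : ℝ} (hc : 0 < c) (hlow : ∀ C δ η : ℝ, 0 < C → C ≤ 1 → 0 < δ → 0 < η →
    ∃ X0 : ℕ, ∀ X ≥ X0, 2 ^ 48 ≤ X ∧ ∀ Q : Finset ℕ, (∀ q ∈ Q, q.Prime ∧ q ≤ X) →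
      δ * X / Real.log X ≤ (Q.card : ℝ) → ∀ S : Finset ℕ,
      (∀ x ∈ S, 1 ≤ x ∧ (x : ℝ) ≤ C * Real.log X) → η * (C * Real.log X) ≤ (S.card : ℝ) →
      c * C * δ ^ 2 * η ^ 2 * X ≤ ((S.image h + big X Q).card : ℝ)) (C : ℝ) (hC : 0 < C)
    (hC1 : C ≤ 1) : ∃ X0 : ℕ, ∀ X ≥ X0, c / 30 * C * X ≤ ((sm C X).ncard : ℝ) := by
  obtain ⟨X1, hX1⟩ := hlow (C / 2) (9 / 10) (1 / 2) (by positivity) (by linarith) (by norm_num)
    (by norm_num)
  obtain ⟨n0, hn0⟩ := pi_bounds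
  obtain ⟨X2, hX2⟩ := exists_large (4 / C)
  refine ⟨2 * (X1 + n0 + X2) + 2, fun X hX => ?_⟩
  set Y := X / 2 with hY
  obtain ⟨hY48, hlog⟩ := hX2 Y (by omega)
  have hpi := (hn0 Y (by omega)).1
  obtain ⟨b1, b2, b3, b4, b5, b6⟩ := basic hY48
  have hYr : (2 : ℝ) ^ 48 ≤ Y := by exact_mod_cast hY48
  have hYpos : (0 : ℝ) < Y := lt_of_lt_of_le (by positivity) hYr
  set L := Real.log Y with hL
  have hL0 : 0 < L := by linarith
  set Q : Finset ℕ := (Finset.range (Y + 1)).filter Nat.Prime with hQ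
  have hQp : ∀ q ∈ Q, q.Prime ∧ q ≤ Y := fun q hq => by
    rw [hQ, Finset.mem_filter, Finset.mem_range] at hq
    exact ⟨hq.2, by omega⟩
  have hQc : 9 / 10 * Y / L ≤ (Q.card : ℝ) := by
    have h6 : Q.card = Nat.primeCounting Y := by
      rw [hQ, Nat.primeCounting, Nat.primeCounting', Nat.count_eq_card_filter_range]
    rw [h6, div_le_iff₀ hL0]
    exact hpi
  set M := ⌊C / 2 * L⌋₊ with hM
  have hMr : (M : ℝ) ≤ C / 2 * L := Nat.floor_le (by positivity)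
  have hS : ∀ x ∈ Icc 1 M, 1 ≤ x ∧ (x : ℝ) ≤ C / 2 * L := fun x hx => by
    rw [Finset.mem_Icc] at hx
    exact ⟨hx.1, le_trans (by exact_mod_cast hx.2) hMr⟩
  have hSc : 1 / 2 * (C / 2 * L) ≤ ((Icc 1 M).card : ℝ) := by
    rw [Nat.card_Icc, Nat.add_sub_cancel]
    have h1 : C / 2 * L < M + 1 := Nat.lt_floor_add_one _
    have h2 : 4 ≤ C * L := by
      rw [div_le_iff₀ hC] at hlog
      linarith
    linarith
  have hmain := (hX1 Y (by omega)).2 Q hQp hQc (Icc 1 M) hS hSc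
  have hfin : (sm C X).Finite := (Set.finite_Iic X).subset fun _ hn => hn.1
  have h1 : (((Icc 1 M).image h + big Y Q : Finset ℕ) : Set ℕ) ⊆ sm C X := by
    intro n hn
    rw [Finset.mem_coe, Finset.mem_add] at hn
    obtain ⟨a, ha, q, hq, rfl⟩ := hn
    obtain ⟨x, hx, rfl⟩ := Finset.mem_image.1 ha
    have hq' := Finset.mem_filter.1 hq
    have e : h x + q = q + x * (x + 1) := by unfold h; ring
    rw [e]
    have hle := sum_le (by linarith : C / 2 ≤ 1) hY48 (hQp q hq'.1).2 (hS x hx).2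
    refine ⟨by omega, odd_of_big hY48 (hQp q hq'.1).1 hq'.2 x, q, x, (hQp q hq'.1).1, (hS x hx).1,
      rfl, (hS x hx).2.trans ?_⟩
    have h3 : Real.sqrt Y ≤ ((q + x * (x + 1) : ℕ) : ℝ) := by
      have h4 : Real.sqrt Y ≤ (Nat.sqrt Y : ℝ) + 1 := Real.real_sqrt_le_nat_sqrt_succ
      have h5 : (Nat.sqrt Y + 1 : ℕ) ≤ q + x * (x + 1) := by
        have := hq'.2
        omega
      have h6 : ((Nat.sqrt Y + 1 : ℕ) : ℝ) ≤ ((q + x * (x + 1) : ℕ) : ℝ) := by exact_mod_cast h5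
      push_cast at h6 ⊢
      linarith
    have hs : 0 < Real.sqrt Y := Real.sqrt_pos.2 hYpos
    have h7 : Real.log (Real.sqrt Y) ≤ Real.log ((q + x * (x + 1) : ℕ) : ℝ) :=
      Real.log_le_log hs h3
    rw [Real.log_sqrt hYpos.le, ← hL] at h7
    have : C / 2 * L = C * (L / 2) := by ring
    rw [this]
    exact mul_le_mul_of_nonneg_left h7 hC.le
  have h2 := Set.ncard_le_ncard h1 hfin
  rw [Set.ncard_coe_finset] at h2
  have h3 : (((Icc 1 M).image h + big Y Q).card : ℝ) ≤ ((sm C X).ncard : ℝ) := by exact_mod_cast h2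
  refine le_trans ?_ (hmain.trans h3)
  have h7 : X ≤ 3 * Y := by omega
  have h8 : (X : ℝ) ≤ 3 * (Y : ℝ) := by exact_mod_cast h7
  have h9 : c / 30 * C * X ≤ c / 30 * C * (3 * Y) := by gcongr
  have h10 : 0 < c * C * Y := by positivity
  nlinarith

theorem sm_upper (C : ℝ) (hC : 0 < C) : ∃ X0 : ℕ, ∀ X ≥ X0,
    (({n : ℕ | n ≤ X ∧ ∃ p x : ℕ, p.Prime ∧ 1 ≤ x ∧ n = p + x * (x + 1) ∧
      (x : ℝ) ≤ C * Real.log n}.ncard : ℕ) : ℝ) ≤ 2 * C * X := by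
  obtain ⟨n0, hn0⟩ := pi_bounds
  obtain ⟨X2, hX2⟩ := exists_large 1
  refine ⟨max n0 X2, fun X hX => ?_⟩
  have hpi := (hn0 X ((le_max_left _ _).trans hX)).2
  obtain ⟨hX48, hlog⟩ := hX2 X ((le_max_right _ _).trans hX)
  have hXr : (2 : ℝ) ^ 48 ≤ X := by exact_mod_cast hX48
  have hXpos : (0 : ℝ) < X := lt_of_lt_of_le (by positivity) hXr
  set L := Real.log X with hL
  set M := ⌊C * L⌋₊ with hM
  have hMr : (M : ℝ) ≤ C * L := Nat.floor_le (by positivity)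
  set T : Finset ℕ := ((((Finset.range (X + 1)).filter Nat.Prime) ×ˢ (Icc 1 M)).image
    fun z : ℕ × ℕ => z.1 + z.2 * (z.2 + 1)) with hT
  have h1 : {n : ℕ | n ≤ X ∧ ∃ p x : ℕ, p.Prime ∧ 1 ≤ x ∧ n = p + x * (x + 1) ∧
      (x : ℝ) ≤ C * Real.log n} ⊆ (T : Set ℕ) := by
    rintro n ⟨hn, p, x, hp, hx, rfl, hxl⟩
    rw [hT, Finset.mem_coe, Finset.mem_image]
    refine ⟨(p, x), ?_, rfl⟩
    rw [Finset.mem_product, Finset.mem_filter, Finset.mem_range, Finset.mem_Icc]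
    refine ⟨⟨by omega, hp⟩, hx, Nat.le_floor (hxl.trans ?_)⟩
    have hn0' : 0 < p + x * (x + 1) := by
      have := hp.pos
      omega
    have h2 : Real.log ((p + x * (x + 1) : ℕ) : ℝ) ≤ L :=
      Real.log_le_log (by exact_mod_cast hn0') (by exact_mod_cast hn)
    exact mul_le_mul_of_nonneg_left h2 hC.le
  have h2 := Set.ncard_le_ncard h1 T.finite_toSet
  rw [Set.ncard_coe_finset] at h2
  have h3 : T.card ≤ Nat.primeCounting X * M := by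
    rw [hT]
    refine Finset.card_image_le.trans ?_
    rw [Finset.card_product, Nat.card_Icc, Nat.add_sub_cancel, Nat.primeCounting,
      Nat.primeCounting', Nat.count_eq_card_filter_range]
  have h4 : ((({n : ℕ | n ≤ X ∧ ∃ p x : ℕ, p.Prime ∧ 1 ≤ x ∧ n = p + x * (x + 1) ∧
      (x : ℝ) ≤ C * Real.log n}.ncard : ℕ)) : ℝ) ≤ (Nat.primeCounting X : ℝ) * M := by
    exact_mod_cast h2.trans h3
  refine h4.trans ?_
  calc (Nat.primeCounting X : ℝ) * M ≤ (Nat.primeCounting X : ℝ) * (C * L) := by gcongr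
    _ = C * ((Nat.primeCounting X : ℝ) * L) := by ring
    _ ≤ C * (11 / 10 * X) := by gcongr
    _ ≤ 2 * C * X := by nlinarith [mul_pos hC hXpos]

end Pool.Agent.TriX
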